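import Pool.Agent.X129.Trade9

/-!
# MP_0d0d23_co: all `r ≥ 6`, `m ≥ 3`, and the step from `r` to `r + 1`

Adding a passer (a player who wins alone) to a complete simple game without passers adds exactly
one shift-minimal winning type and changes neither completeness nor the invariant trade robustness.
If the game has a passer, one first adds a veto player; this removes the passers and changes none
of the data.  Four-type tie games with at most six shift-minimal winning types start the induction
for every `m ≥ 3`.  Together with the published case `r = 4`, `m ≥ 3` (Freixas, Molinero 2009,
listed in the problem file) this answers the question for `r = 5` as well.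
-/

namespace Pool.Agent.Results.MP_0d0d23_co.OneMoreMinimalType

open Pool.Agent.X129.Trade

/-- For every `m ≥ 3` the numbers `r` for which some complete simple game with exactly `r`
shift-minimal winning types is `m`-invariant trade robust but not `(m+1)`-invariant trade robust
are exactly the `r ≥ R`, for some `R ≤ 6`. -/
theorem result : ∀ m : ℕ, 3 ≤ m → ∃ R : ℕ, R ≤ 6 ∧ ∀ r : ℕ, HasInv r m ↔ R ≤ r := by
  classical
  intro m hm
  have h6 : HasInv 6 m := Pool.Agent.X129.TradeB.hasInv_six 6 m le_rfl hm
  have hex : ∃ r, HasInv r m := ⟨6, h6⟩
  have mono : ∀ r s, r ≤ s → HasInv r m → HasInv s m := by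
    intro r s hrs h
    induction s, hrs using Nat.le_induction with
    | base => exact h
    | succ s _ ih => exact step s m ih
  exact ⟨Nat.find hex, Nat.find_min' hex h6,
    fun r => ⟨fun h => Nat.find_min' hex h, fun h => mono _ _ h (Nat.find_spec hex)⟩⟩

end Pool.Agent.Results.MP_0d0d23_co.OneMoreMinimalType
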